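import Pool.Agent.H97.RL.Targets3
import Pool.Agent.H78.RLM.PCB
import Pool.Agent.H32.RLM.PCA

/-! Paths cut into parts: one step, and the potential. -/

set_option autoImplicit false

open Finset Pool.Agent.H97.RK Pool.Agent.H97.RL Pool.Agent.H20.RKS Pool.Agent.H78.RLM

namespace Pool.Agent.H97.RLM

theorem vs_ext {n : ℕ} (C : Clause n) (ls : List (Fin n × Bool)) :
    vs (exC C ls) = vs C ∪ (ls.map Prod.fst).toFinset := by
  unfold vs exC
  rw [image_union]
  congr 1
  apply Finset.ext
  intro v
  simp only [mem_image, List.mem_toFinset, List.mem_map]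
  constructor
  · rintro ⟨p, ⟨q, hq, rfl⟩, rfl⟩
    exact ⟨q, hq, rfl⟩
  · rintro ⟨q, hq, rfl⟩
    exact ⟨(q.1, !q.2), ⟨q, hq, rfl⟩, rfl⟩

theorem fls_ext {n : ℕ} (C : Clause n) (ls : List (Fin n × Bool)) (y : Fin n → Bool) :
    Falsified (exC C ls) y ↔ Falsified C y ∧ ∀ p ∈ ls, y p.1 = p.2 := by
  constructor
  · intro h
    refine ⟨fun l hl => h l (mem_union_left _ hl), fun p hp => ?_⟩
    have h1 := h (p.1, !p.2) (mem_union_right _ (List.mem_toFinset.2
      (List.mem_map.2 ⟨p, hp, rfl⟩)))
    simpa using h1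
  · rintro ⟨h1, h2⟩ l hl
    unfold exC at hl
    rw [mem_union] at hl
    rcases hl with hl | hl
    · exact h1 l hl
    · rw [List.mem_toFinset, List.mem_map] at hl
      obtain ⟨p, hp, rfl⟩ := hl
      simp only
      rw [h2 p hp]
      simp

theorem ph_add3 {n : ℕ} (R h : ℕ) (l0 l1 : List (Fin n)) (N : Finset (Fin n))
    (hle : ∀ v, l0.count v ≤ l1.count v) (hlt : ∀ v ∈ N, l0.count v < l1.count v)
    (hc : (univ.filter fun v => R < l1.count v).card ≤ h) :
    ph R l0 + (N.card - h) ≤ ph R l1 := by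
  obtain ⟨Q, hQ⟩ : ∃ Q, Q = N \ (univ.filter fun v => R < l1.count v) := ⟨_, rfl⟩
  have h1 : N.card - h ≤ Q.card := by
    have := Finset.le_card_sdiff (univ.filter fun v => R < l1.count v) N
    rw [← hQ] at this
    omega
  have h2 : ph R l0 + Q.card ≤ ph R l1 := by
    unfold ph
    have h3 : Q.card = ∑ v, if v ∈ Q then 1 else 0 := by
      rw [Finset.sum_ite_mem, Finset.univ_inter, Finset.sum_const, smul_eq_mul, mul_one]
    rw [h3, ← Finset.sum_add_distrib]
    apply Finset.sum_le_sum
    intro v _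
    have h4 := hle v
    by_cases hv : v ∈ Q
    · rw [if_pos hv]
      rw [hQ, Finset.mem_sdiff, Finset.mem_filter] at hv
      have h5 : ¬ R < l1.count v := fun h => hv.2 ⟨Finset.mem_univ _, h⟩
      have h6 := hlt v hv.1
      omega
    · rw [if_neg hv]
      omega
  omega

/-- one step of a path which is cut into parts -/
theorem step3 {n k m : ℕ} {F : Fml n k m} {S r : ℕ} {line : ℕ → Clause n} {rule : ℕ → Rule n}
    (href : IsRef F S r line rule) {U V : Finset ℕ} {an : ℕ → ℕ}
    {ls : ℕ → List (Fin n × Bool)} (hT : Tree S r rule (U ∪ V) an ls) {a i i' : ℕ} (hi : i < S)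
    {q : Finset (Fin n)} {l1 : List (Fin n)} (hsg : Seg3 rule U V a i q l1)
    (hq : q = ((ls i).map Prod.fst).toFinset)
    (hvi : vs (line i) ⊆ vs (exC (line (an i)) (ls i)))
    {A A' : Finset (Fin n)} (hA : vs (exC (line (an i)) (ls i)) ⊆ A) (hiU : i' ∉ U)
    (hir : i' ≠ r) (hax : rule i' ≠ Rule.ax) {y y' : Fin n → Bool}
    (hf : Falsified (exC (line (an i)) (ls i)) y) (hyy : ∀ u ∈ A, y' u = y u)
    (hf' : Falsified (line i') y') (hvs' : vs (line i') ⊆ A')
    (hor : (rule i = Rule.weak i' ∧ A' = A) ∨ ∃ (x : Fin n) (b : ℕ), A' = insert x A ∧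
        ((rule i = Rule.res x i' b ∧ y' x = false) ∨ (rule i = Rule.res x b i' ∧ y' x = true))) :
    ∃ (q' : Finset (Fin n)) (l1' : List (Fin n)), Seg3 rule U V a i' q' l1' ∧
      q' = ((ls i').map Prod.fst).toFinset ∧
      vs (line i') ⊆ vs (exC (line (an i')) (ls i')) ∧
      vs (exC (line (an i')) (ls i')) ⊆ A' ∧ Falsified (exC (line (an i')) (ls i')) y' ∧
      (∀ v, l1.count v ≤ l1'.count v) ∧ ∀ v ∈ A', v ∉ A → l1.count v < l1'.count v := by
  have hcor := href.2.2 i hi
  have hf1 : Falsified (exC (line (an i)) (ls i)) y' :=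
    fls_congr hf fun u hu => hyy u (hA hu)
  have hqA : q ⊆ A := by
    refine Subset.trans ?_ hA
    rw [vs_ext, hq]
    exact subset_union_right
  have hbase : i' ∈ V → an i' = i' ∧ ls i' = [] := fun h =>
    hT.base i' (Or.inl (mem_union_right _ h))
  rcases hor with ⟨hw, hAA⟩ | ⟨x, b, hAA, hres⟩
  · rw [hw] at hcor
    have hsg' := Seg3.weak hsg hw hiU
    refine ⟨_, _, hsg', ?_⟩
    by_cases hV : i' ∈ V
    · obtain ⟨h1, h2⟩ := hbase hV
      rw [if_pos hV, h1, h2, vs_ext]
      refine ⟨rfl, subset_union_left, ?_, ?_, fun v => le_rfl, fun v hv hv' => ?_⟩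
      · refine union_subset hvs' ?_
        simp
      · rw [fls_ext]
        exact ⟨hf', by simp⟩
      · rw [hAA] at hv
        exact absurd hv hv'
    · have hUV : i' ∉ U ∪ V := by
        rw [mem_union, not_or]
        exact ⟨hiU, hV⟩
      obtain ⟨h1, h2⟩ := hT.weak i i' hi hUV hir hax hw
      rw [if_neg hV, h1, h2]
      refine ⟨hq, Subset.trans (image_subset_image hcor.2) hvi, ?_, hf1, fun v => le_rfl,
        fun v hv hv' => ?_⟩
      · rw [hAA]
        exact hA
      · rw [hAA] at hv
        exact absurd hv hv'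
  · have hcount : ∀ v, l1.count v ≤ (if x ∈ q then l1 else x :: l1).count v := by
      intro v
      by_cases hx : x ∈ q
      · rw [if_pos hx]
      · rw [if_neg hx]
        exact List.count_le_count_cons
    have hcount' : ∀ v ∈ A', v ∉ A →
        l1.count v < (if x ∈ q then l1 else x :: l1).count v := by
      intro v hv hv'
      rw [hAA, mem_insert] at hv
      have hvx : v = x := hv.resolve_right hv'
      subst hvx
      have hx : v ∉ q := fun h => hv' (hqA h)
      rw [if_neg hx, List.count_cons_self]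
      omega
    have hins : ∀ bb : Bool, line i' ⊆ insert (x, bb) (line i) →
        vs (line i') ⊆ insert x (vs (line i)) := by
      intro bb hsub v hv
      unfold vs at hv
      obtain ⟨p, hp, hpv⟩ := mem_image.1 hv
      have := hsub hp
      rw [mem_insert] at this ⊢
      rcases this with h | h
      · left
        rw [← hpv, h]
      · right
        exact mem_image.2 ⟨p, h, hpv⟩
    have hmain : ∀ bb : Bool, y' x = bb → line i' ⊆ insert (x, !bb) (line i) →
        (i' ∉ V → an i' = an i ∧ ls i' = (x, bb) :: ls i) →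
        (if i' ∈ V then ∅ else insert x q) = ((ls i').map Prod.fst).toFinset ∧
        vs (line i') ⊆ vs (exC (line (an i')) (ls i')) ∧
        vs (exC (line (an i')) (ls i')) ⊆ A' ∧ Falsified (exC (line (an i')) (ls i')) y' := by
      intro bb hbb hsub han
      by_cases hV : i' ∈ V
      · obtain ⟨h1, h2⟩ := hbase hV
        rw [if_pos hV, h1, h2, vs_ext]
        refine ⟨rfl, subset_union_left, ?_, ?_⟩
        · refine union_subset hvs' ?_
          simp
        · rw [fls_ext]
          exact ⟨hf', by simp⟩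
      · obtain ⟨h1, h2⟩ := han hV
        rw [if_neg hV, h1, h2]
        have h3 : vs (exC (line (an i)) ((x, bb) :: ls i)) =
            insert x (vs (exC (line (an i)) (ls i))) := by
          rw [vs_ext, vs_ext]
          apply Finset.ext
          intro v
          simp only [List.map_cons, List.toFinset_cons, mem_union, mem_insert]
          tauto
        refine ⟨?_, ?_, ?_, ?_⟩
        · rw [hq, List.map_cons, List.toFinset_cons]
        · rw [h3]
          exact (hins _ hsub).trans (insert_subset_insert _ hvi)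
        · rw [h3, hAA]
          exact insert_subset_insert _ hA
        · rw [fls_ext] at hf1 ⊢
          refine ⟨hf1.1, fun p hp => ?_⟩
          rcases List.mem_cons.1 hp with h | h
          · rw [h]
            exact hbb
          · exact hf1.2 p h
    rcases hres with ⟨hr, hy⟩ | ⟨hr, hy⟩
    · rw [hr] at hcor
      obtain ⟨g1, g2, g3, g4⟩ := hmain false hy hcor.2.2.1 fun hV =>
        hT.left i i' b x hi (by rw [mem_union, not_or]; exact ⟨hiU, hV⟩) hir hax hr
      exact ⟨_, _, Seg3.left hsg hr hiU, g1, g2, g3, g4, hcount, hcount'⟩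
    · rw [hr] at hcor
      obtain ⟨g1, g2, g3, g4⟩ := hmain true hy hcor.2.2.2 fun hV =>
        hT.right i i' b x hi (by rw [mem_union, not_or]; exact ⟨hiU, hV⟩) hir hax hr
      exact ⟨_, _, Seg3.right hsg hr hiU, g1, g2, g3, g4, hcount, hcount'⟩

end Pool.Agent.H97.RLM
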