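import Pool.Agent.H97.RL.Targets2
import Pool.Agent.H79.RLM.CN5

/-!
Row CN6 of rlm_modules: everything is served, after helper79's proof of CN5.
-/

set_option autoImplicit false

namespace Pool.Agent.H97.RLM

open Finset Pool.Agent.H97.RK Pool.Agent.H97.RL Pool.Agent.H79.RLM

open Classical in
theorem pf_CN6 (hCN3 : T_CN3) (hCN4 : T_CN4) : T_CN6 := by
  intro n q a w₀ line U E P hw₀ hyp
  have hvs : ∀ C : Clause n, (vs C).card ≤ n := by
    intro C
    have h := card_le_univ (vs C)
    rwa [Fintype.card_fin] at h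
  set A1 : Finset ((Fin n → Bool) × (Fin n → Bool) × Finset (Fin n)) :=
    (E.filter fun e => (vs (line e.1)).card ≤ w₀).biUnion fun e =>
      univ.filter fun p => Ser (line e.1) (P e.1 e.2) q p.1 p.2.1 p.2.2 with hA1
  set A2 : Finset ((Fin n → Bool) × (Fin n → Bool) × Finset (Fin n)) :=
    (U.filter fun l => w₀ < (vs (line l)).card).biUnion fun l =>
      univ.filter fun p => ∃ Q, Ser (line l) Q q p.1 p.2.1 p.2.2 with hA2
  set A3 : Finset ((Fin n → Bool) × (Fin n → Bool) × Finset (Fin n)) :=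
    univ ×ˢ (univ ×ˢ (univ.filter fun A => n < A.card + a)) with hA3
  have hcov : (univ : Finset ((Fin n → Bool) × (Fin n → Bool) × Finset (Fin n))) ⊆
      A1 ∪ A2 ∪ A3 := by
    rintro ⟨x, z, A⟩ -
    by_cases hA : n < A.card + a
    · refine mem_union_right _ ?_
      rw [hA3, mem_product]
      refine ⟨mem_univ _, ?_⟩
      rw [mem_product]
      exact ⟨mem_univ _, mem_filter.2 ⟨mem_univ _, hA⟩⟩
    · refine mem_union_left _ ?_
      obtain ⟨l, hl, hz⟩ := hyp x A (by omega)
      obtain ⟨i, hi, hser⟩ := hz z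
      by_cases hw : (vs (line l)).card ≤ w₀
      · refine mem_union_left _ ?_
        rw [hA1, mem_biUnion]
        exact ⟨(l, i), mem_filter.2 ⟨hi, hw⟩, mem_filter.2 ⟨mem_univ _, hser⟩⟩
      · refine mem_union_right _ ?_
        have hlU : l ∈ U := by
          rcases hl with hl | hl
          · exact hl
          · exact absurd hl hw
        rw [hA2, mem_biUnion]
        exact ⟨l, mem_filter.2 ⟨hlU, not_le.1 hw⟩, mem_filter.2 ⟨mem_univ _, P l i, hser⟩⟩
  have hcard : (univ : Finset ((Fin n → Bool) × (Fin n → Bool) × Finset (Fin n))).card =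
      8 ^ n := by
    rw [card_univ, Fintype.card_prod, Fintype.card_prod, Fintype.card_fun, Fintype.card_finset,
      Fintype.card_fin, Fintype.card_bool]
    rw [show (8 : ℕ) = 2 * (2 * 2) by norm_num, mul_pow, mul_pow]
  have h1 : A1.card ≤ E.card * (6 ^ w₀ * 4 ^ (n - w₀) * bl n q ^ 2) := by
    rw [hA1]
    refine card_biUnion_le.trans ?_
    refine (sum_le_card_nsmul _ _ (6 ^ w₀ * 4 ^ (n - w₀) * bl n q ^ 2) ?_).trans ?_
    · intro e he
      refine (hCN3 n q (line e.1) (P e.1 e.2)).trans ?_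
      exact Nat.mul_le_mul_right _ (mono4 n _ w₀ (mem_filter.1 he).2 hw₀)
    · rw [smul_eq_mul]
      exact Nat.mul_le_mul_right _ (card_filter_le _ _)
  have h2 : A2.card ≤ U.card * (6 ^ w₀ * 8 ^ (n - w₀) * bl n q ^ 2) := by
    rw [hA2]
    refine card_biUnion_le.trans ?_
    refine (sum_le_card_nsmul _ _ (6 ^ w₀ * 8 ^ (n - w₀) * bl n q ^ 2) ?_).trans ?_
    · intro l hl
      refine (hCN4 n q (line l)).trans ?_
      exact Nat.mul_le_mul_right _ (mono8 n _ w₀ (mem_filter.1 hl).2.le (hvs _))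
    · rw [smul_eq_mul]
      exact Nat.mul_le_mul_right _ (card_filter_le _ _)
  have h3 : A3.card ≤ 4 ^ n * bl n a := by
    rw [hA3, card_product, card_product, card_univ, Fintype.card_fun, Fintype.card_bool,
      Fintype.card_fin, ← mul_assoc, ← mul_pow]
    exact Nat.mul_le_mul_left _ (card_large n a)
  calc 8 ^ n = (univ : Finset ((Fin n → Bool) × (Fin n → Bool) × Finset (Fin n))).card :=
        hcard.symm
    _ ≤ (A1 ∪ A2 ∪ A3).card := card_le_card hcov
    _ ≤ A1.card + A2.card + A3.card :=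
        (card_union_le _ _).trans (Nat.add_le_add_right (card_union_le _ _) _)
    _ ≤ _ := Nat.add_le_add (Nat.add_le_add h1 h2) h3

end Pool.Agent.H97.RLM
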