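import Pool.Agent.H97.RL.Targets2
import Pool.Agent.H78.RLM.PCB

/-! (PCC) the path through a piece in which few variables are resolved often (after helper78's
proof of PCB). -/

set_option autoImplicit false

open Finset Pool.Agent.H97.RK Pool.Agent.H97.RL Pool.Agent.H20.RKS Pool.Agent.H78.RLM

namespace Pool.Agent.H97.RLM

theorem pf_PCC (hSTQ : T_STQ) (hRST : T_RST) (hFGT : T_FGT) : T_PCC := by
  intro n k m F j t d e s₀ hP hd hde S r line rule href U R h hseg z y₀ l hlS hlU hAt
  obtain ⟨y, W₁, J₁, hst, -, hfal, hcard⟩ := hAt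
  rw [empty_union] at hst hcard
  have ht1 := hP.t1
  have hed := hP.ed
  have hte := hP.te
  have hW₁ : W₁.card ≤ e := by
    have h1 := hst.crd
    have h2 := hst.lt
    have h3 : j * J₁.card ≤ j * t := Nat.mul_le_mul_left _ h2.le
    exact h1.trans (h3.trans hP.je)
  obtain ⟨B₀, hB₀⟩ : ∃ B₀ : Finset (Fin n), B₀ = vs (line l) := ⟨_, rfl⟩
  rw [← hB₀] at hst hcard
  -- the start
  obtain ⟨ys, hys⟩ : ∃ ys : Fin n → Bool, ys = fun v => if v ∈ B₀ ∪ W₁ then y v else z v :=
    ⟨_, rfl⟩
  have hys1 : ∀ u ∈ B₀ ∪ W₁, ys u = y u := fun u hu => by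
    rw [hys]
    exact if_pos hu
  have hst1 : St F j t ys B₀ W₁ J₁ := hRST n k m F j t y ys B₀ W₁ J₁ hst hys1
  have hfal1 : Falsified (line l) ys := fls_congr hfal fun u hu =>
    hys1 u (Finset.mem_union_left _ (hB₀ ▸ hu))
  have hcnt : cnt B₀ ys z ≤ e := by
    refine le_trans (Finset.card_le_card ?_) hW₁
    intro v hv
    rw [Finset.mem_filter] at hv
    by_contra hvW
    apply hv.2.2
    rw [hys]
    apply if_neg
    rw [Finset.mem_union]
    exact fun h => h.elim hv.2.1 hvW
  by_cases hn : n ≤ B₀.card + (h + 3 * d)
  · left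
    refine ⟨l, hlS, ys, hfal1, by rw [← hB₀]; exact hn, ?_⟩
    unfold cnt at hcnt
    rw [hB₀] at hcnt
    exact hcnt.trans (Nat.le_add_right _ _)
  push Not at hn
  have key : ∀ i, i < S → ∀ (l0 q : List (Fin n)) (A B W : Finset (Fin n)) (J : Finset (Fin m))
      (y' : Fin n → Bool) (p : ℕ), i ≤ l → Seg rule U l i (q ++ l0) → St F j t y' A W J →
      Falsified (line i) y' → vs (line i) ⊆ A → A ⊆ B ∪ q.toFinset →
      B.card + (h + 3 * d) < n → A.card + 1 + e + d ≤ n →
      cnt B₀ y' z ≤ e + 2 * t * p + J.card → p * d ≤ ph R l0 →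
      (∃ i, i < S ∧ ∃ y : Fin n → Bool, Falsified (line i) y ∧
        n ≤ (vs (line i)).card + (h + 3 * d) ∧ cnt B₀ y z ≤ e + 2 * t * (n * R / d + 1)) ∨
        ∃ l', l' < l ∧ l' ∈ U ∧ At F j t d e line y₀ ∅ l' := by
    intro i
    induction i using Nat.strong_induction_on with
    | _ i ih =>
      intro hi l0 q A B W J y' p hil hsg hst' hfal' hvs hAB hB hAc hct hph
      obtain ⟨-, i', y'', A', W', J', hi', hst'', hfal'', hvs', hAc', hyy, hdst, hor⟩ :=
        hSTQ n k m F j t d e s₀ hP S r line rule href i y' A W J hi hst' hfal' hvs hAc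
      have hi'S : i' < S := hi'.trans hi
      have hAA' : A ⊆ A' := by
        rcases hor with ⟨-, h⟩ | ⟨v, a, h, -⟩
        · rw [h]
        · rw [h]
          exact Finset.subset_insert _ _
      have hsub : vs (line i') ⊆ A' := hvs'
      have hct' : cnt B₀ y'' z ≤ e + 2 * t * p + J'.card := by
        have := cnt_le B₀ y' y'' z
        omega
      have hJ' := hst''.lt
      by_cases hiU : i' ∈ U
      · -- a line of `U`
        right
        obtain ⟨y3, W3, J3, hst3, heq3, -⟩ :=
          hFGT n k m F j t d e s₀ hP y'' A' (vs (line i')) W' J' hst'' hsub (by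
            have := Finset.card_le_card hsub
            omega)
        refine ⟨i', lt_of_lt_of_le hi' hil, hiU, y3, W3, J3, ?_, fun u hu => ?_, ?_, ?_⟩
        · rw [empty_union]
          exact hst3
        · exact absurd hu (Finset.notMem_empty _)
        · exact fls_congr hfal'' fun u hu => heq3 u hu
        · have := Finset.card_le_card hsub
          rw [empty_union]
          omega
      · -- the piece goes on
        obtain ⟨q', hq', hsg'⟩ : ∃ q' : List (Fin n), A' = A ∪ q'.toFinset ∧
            Seg rule U l i' (q' ++ (q ++ l0)) := by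
          rcases hor with ⟨h1, h2⟩ | ⟨v, a, h1, h2⟩
          · exact ⟨[], by simp [h2], Seg.weak hsg h1 hiU⟩
          · refine ⟨[v], ?_, ?_⟩
            · rw [h1]
              ext w
              simp
            · rcases h2 with ⟨h2, -⟩ | ⟨h2, -⟩
              · exact Seg.left hsg h2 hiU
              · exact Seg.right hsg h2 hiU
        rw [← List.append_assoc] at hsg'
        have hsub' : A' ⊆ B ∪ (q' ++ q).toFinset := by
          rw [hq', List.toFinset_append]
          apply Finset.union_subset
          · refine hAB.trans (Finset.union_subset Finset.subset_union_left ?_)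
            exact Finset.subset_union_right.trans Finset.subset_union_right
          · exact Finset.subset_union_left.trans Finset.subset_union_right
        by_cases hc : A'.card + 1 + e + d ≤ n
        · exact ih i' hi' hi'S l0 (q' ++ q) A' B W' J' y'' p (hi'.le.trans hil) hsg' hst'' hfal''
            hvs' hsub' hB hc hct' hph
        · have hpR : p ≤ n * R / d := by
            rw [Nat.le_div_iff_mul_le (by omega)]
            exact hph.trans (Pool.Agent.H20.RKS.ph_le R l0)
          by_cases hw : n ≤ (vs (line i')).card + (h + 3 * d)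
          · left
            refine ⟨i', hi'S, y'', hfal'', hw, hct'.trans ?_⟩
            have h1 : 2 * t * (p + 1) ≤ 2 * t * (n * R / d + 1) :=
              Nat.mul_le_mul_left _ (by omega)
            have h2 : 2 * t * (p + 1) = 2 * t * p + 2 * t := by ring
            omega
          · push Not at hw
            obtain ⟨y3, W3, J3, hst3, heq3, hdst3⟩ :=
              hFGT n k m F j t d e s₀ hP y'' A' (vs (line i')) W' J' hst'' hsub (by omega)
            have hfal3 : Falsified (line i') y3 :=
              fls_congr hfal'' fun u hu => heq3 u hu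
            have hph' : (p + 1) * d ≤ ph R ((q' ++ q) ++ l0) := by
              have h1 := Pool.Agent.H20.RKS.ph_add R h (q' ++ q) l0 (hseg l i' _ hlU.symm hsg')
              have h2 : A'.card ≤ B.card + (q' ++ q).toFinset.card :=
                (Finset.card_le_card hsub').trans (Finset.card_union_le _ _)
              have h3 : (p + 1) * d = p * d + d := by ring
              omega
            refine ih i' hi' hi'S ((q' ++ q) ++ l0) [] (vs (line i')) (vs (line i')) W3
              J3 y3 (p + 1) (hi'.le.trans hil) hsg' hst3 hfal3 (Finset.Subset.refl _)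
              Finset.subset_union_left (by omega) (by omega) ?_ hph'
            · have h1 := cnt_le B₀ y'' y3 z
              have h2 : 2 * t * (p + 1) = 2 * t * p + 2 * t := by ring
              omega
  have h1 := key l hlS [] [] B₀ B₀ W₁ J₁ ys 0 le_rfl Seg.refl hst1 hfal1
    (by rw [hB₀]) Finset.subset_union_left hn (by omega) (by omega) (by omega)
  unfold cnt at h1
  rw [hB₀] at h1
  exact h1

end Pool.Agent.H97.RLM
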