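import Pool.Agent.H97.RLM.Step3

/-! (PDB) the path through a piece which is cut into parts, some values are fixed (after
helper78's proof of PCB). -/

set_option autoImplicit false

open Finset Pool.Agent.H97.RK Pool.Agent.H97.RL Pool.Agent.H20.RKS Pool.Agent.H78.RLM

namespace Pool.Agent.H97.RLM

theorem pf_PDB (hSTQ : T_STQ) (hRST : T_RST) (hFGT : T_FGT) : T_PDB := by
  intro n k m F j t d e s₀ hP hd hde S r line rule href U V an ls hT R hseg x z y₀ A₀ l hlS hlr
    hlU hx hAt
  have hbase : an l = l ∧ ls l = [] :=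
    hT.base l (hlU.elim (fun h => Or.inl (mem_union_left _ h)) Or.inr)
  obtain ⟨y, W₁, J₁, hst, hy0, hfal, hcard⟩ := hAt
  have ht1 := hP.t1
  have hed := hP.ed
  have hte := hP.te
  have hW₁ : W₁.card ≤ e := by
    have h1 := hst.crd
    have h2 := hst.lt
    have h3 : j * J₁.card ≤ j * t := Nat.mul_le_mul_left _ h2.le
    exact h1.trans (h3.trans hP.je)
  set B₀ : Finset (Fin n) := A₀ ∪ vs (line l) with hB₀
  -- the start
  obtain ⟨ys, hys⟩ : ∃ ys : Fin n → Bool, ys = fun v => if v ∈ B₀ ∪ W₁ then y v else z v :=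
    ⟨_, rfl⟩
  have hys1 : ∀ u ∈ B₀ ∪ W₁, ys u = y u := fun u hu => by
    rw [hys]
    exact if_pos hu
  have hst1 : St F j t ys B₀ W₁ J₁ := hRST n k m F j t y ys B₀ W₁ J₁ hst hys1
  have hfal1 : Falsified (line l) ys := fls_congr hfal fun u hu =>
    hys1 u (Finset.mem_union_left _ (Finset.mem_union_right _ hu))
  have hys0 : ∀ u ∈ A₀, ys u = y₀ u := fun u hu => by
    rw [hys1 u (Finset.mem_union_left _ (Finset.mem_union_left _ hu)), hy0 u hu]
  have hcnt : cnt B₀ ys z ≤ e := by
    refine le_trans (Finset.card_le_card ?_) hW₁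
    intro v hv
    rw [Finset.mem_filter] at hv
    by_contra hvW
    apply hv.2.2
    rw [hys]
    apply if_neg
    rw [Finset.mem_union]
    exact fun h => h.elim hv.2.1 hvW
  by_cases hn : n ≤ B₀.card + 3 * d
  · left
    refine ⟨l, hlS, ser_mono (ser_of (d := d) hfal1 hys0 (C' := exC (line (an l)) (ls l)) ?_ hys0
      hx hcnt ?_) ?_⟩
    · rw [hbase.1, hbase.2, fls_ext]
      exact ⟨hfal1, by simp⟩
    · rw [hbase.1, hbase.2, vs_ext]
      simpa using hn
    have h1 : 2 * t * 1 ≤ 2 * t * (n * R / d + 1) :=
      Nat.mul_le_mul_left _ (Nat.le_add_left 1 _)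
    omega
  push Not at hn
  have key : ∀ i, i < S → ∀ (l0 l1 : List (Fin n)) (q A B W : Finset (Fin n))
      (J : Finset (Fin m)) (y' : Fin n → Bool) (p : ℕ), i ≤ l → Seg3 rule U V l i q l1 →
      q = ((ls i).map Prod.fst).toFinset → vs (line i) ⊆ vs (exC (line (an i)) (ls i)) →
      vs (exC (line (an i)) (ls i)) ⊆ A → Falsified (exC (line (an i)) (ls i)) y' →
      (∀ v, l0.count v ≤ l1.count v) → (∀ v ∈ A, v ∉ B → l0.count v < l1.count v) →
      St F j t y' A W J → Falsified (line i) y' → A₀ ⊆ A →
      B.card + 3 * d < n → (∀ u ∈ A₀, y' u = y₀ u) → A.card + 1 + e + d ≤ n →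
      cnt B₀ y' z ≤ e + 2 * t * p + J.card → p * d ≤ ph R l0 →
      (∃ i, i < S ∧ Ser (line l) (fal (exC (line (an i)) (ls i)))
        (5 * d + 2 * t * (n * R / d + 1)) x z A₀) ∨
        ∃ l', l' < l ∧ l' ∈ U ∧ At F j t d e line y₀ A₀ l' := by
    intro i
    induction i using Nat.strong_induction_on with
    | _ i ih =>
      intro hi l0 l1 q A B W J y' p hil hsg hq hvi hA hfC hle hlt hst' hfal' hA₀ hB hy' hAc hct
        hph
      have hvs : vs (line i) ⊆ A := hvi.trans hA
      obtain ⟨-, i', y'', A', W', J', hi', hst'', hfal'', hvs', hAc', hyy, hdst, hor⟩ :=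
        hSTQ n k m F j t d e s₀ hP S r line rule href i y' A W J hi hst' hfal' hvs hAc
      have hi'S : i' < S := hi'.trans hi
      have hAA' : A ⊆ A' := by
        rcases hor with ⟨-, h⟩ | ⟨v, a, h, -⟩
        · rw [h]
        · rw [h]
          exact Finset.subset_insert _ _
      have hA₀' : A₀ ⊆ A' := hA₀.trans hAA'
      have hy'' : ∀ u ∈ A₀, y'' u = y₀ u := fun u hu => by rw [hyy u (hA₀ hu), hy' u hu]
      have hsub : A₀ ∪ vs (line i') ⊆ A' := Finset.union_subset hA₀' hvs'
      have hct' : cnt B₀ y'' z ≤ e + 2 * t * p + J'.card := by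
        have := cnt_le B₀ y' y'' z
        omega
      have hJ' := hst''.lt
      by_cases hiU : i' ∈ U
      · -- a line of `U`
        right
        obtain ⟨y3, W3, J3, hst3, heq3, -⟩ :=
          hFGT n k m F j t d e s₀ hP y'' A' (A₀ ∪ vs (line i')) W' J' hst'' hsub (by
            have := Finset.card_le_card hsub
            omega)
        refine ⟨i', lt_of_lt_of_le hi' hil, hiU, y3, W3, J3, hst3, fun u hu => ?_, ?_, ?_⟩
        · rw [heq3 u (Finset.mem_union_left _ hu), hy'' u hu]
        · exact fls_congr hfal'' fun u hu => heq3 u (Finset.mem_union_right _ hu)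
        · have := Finset.card_le_card hsub
          omega
      · -- the piece goes on
        have hir : i' ≠ r := by omega
        have hax : rule i' ≠ Rule.ax := fun h =>
          Pool.Agent.H32.RLM.noAx hst'' hfal'' hvs' (h ▸ href.2.2 i' hi'S)
        obtain ⟨q', l1', hsg', hq', hvi', hA', hfC', hcle, hclt⟩ :=
          step3 href hT hi hsg hq hvi hA hiU hir hax hfC hyy hfal'' hvs' hor
        have hle' : ∀ v, l0.count v ≤ l1'.count v := fun v => (hle v).trans (hcle v)
        have hlt' : ∀ v ∈ A', v ∉ B → l0.count v < l1'.count v := by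
          intro v hv hvB
          by_cases hvA : v ∈ A
          · exact (hlt v hvA hvB).trans_le (hcle v)
          · exact (hle v).trans_lt (hclt v hv hvA)
        have hsub1 : A₀ ∪ vs (exC (line (an i')) (ls i')) ⊆ A' := union_subset hA₀' hA'
        by_cases hc : A'.card + 1 + e + d ≤ n
        · exact ih i' hi' hi'S l0 l1' q' A' B W' J' y'' p (hi'.le.trans hil) hsg' hq' hvi' hA'
            hfC' hle' hlt' hst'' hfal'' hA₀' hB hy'' hc hct' hph
        · have hpR : p ≤ n * R / d := by
            rw [Nat.le_div_iff_mul_le (by omega)]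
            exact hph.trans (Pool.Agent.H20.RKS.ph_le R l0)
          by_cases hw : n ≤ (A₀ ∪ vs (exC (line (an i')) (ls i'))).card + 3 * d
          · left
            refine ⟨i', hi'S, ser_mono (ser_of hfal1 hys0 hfC' hy'' hx hct' hw) ?_⟩
            have h1 : 2 * t * (p + 1) ≤ 2 * t * (n * R / d + 1) :=
              Nat.mul_le_mul_left _ (by omega)
            have h2 : 2 * t * (p + 1) = 2 * t * p + 2 * t := by ring
            omega
          · push Not at hw
            obtain ⟨y3, W3, J3, hst3, heq3, hdst3⟩ :=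
              hFGT n k m F j t d e s₀ hP y'' A' (A₀ ∪ vs (exC (line (an i')) (ls i'))) W' J' hst''
                hsub1 (by omega)
            have hfC3 : Falsified (exC (line (an i')) (ls i')) y3 :=
              fls_congr hfC' fun u hu => heq3 u (mem_union_right _ hu)
            have hfal3 : Falsified (line i') y3 :=
              fls_congr hfal'' fun u hu => heq3 u (mem_union_right _ (hvi' hu))
            have hph' : (p + 1) * d ≤ ph R l1' := by
              have h1 := ph_add3 R 0 l0 l1' (A' \ B) hle' (fun v hv => by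
                rw [mem_sdiff] at hv
                exact hlt' v hv.1 hv.2) (by
                rw [Nat.le_zero, Finset.card_eq_zero, Finset.filter_eq_empty_iff]
                intro v _
                rw [not_lt]
                exact hseg l i' _ _ hlU.symm hsg' v)
              have h2 := Finset.le_card_sdiff B A'
              have h3 : (p + 1) * d = p * d + d := by ring
              omega
            refine ih i' hi' hi'S l1' l1' q' (A₀ ∪ vs (exC (line (an i')) (ls i')))
              (A₀ ∪ vs (exC (line (an i')) (ls i'))) W3 J3 y3 (p + 1) (hi'.le.trans hil) hsg' hq'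
              hvi' subset_union_right hfC3 (fun v => le_rfl) (fun v hv hv' => absurd hv hv') hst3
              hfal3 subset_union_left (by omega) (fun u hu => ?_) (by omega) ?_ hph'
            · rw [heq3 u (Finset.mem_union_left _ hu), hy'' u hu]
            · have h1 := cnt_le B₀ y'' y3 z
              have h2 : 2 * t * (p + 1) = 2 * t * p + 2 * t := by ring
              omega
  have hex : vs (exC (line (an l)) (ls l)) = vs (line l) := by
    rw [hbase.1, hbase.2, vs_ext]
    simp
  exact key l hlS [] [] ∅ B₀ B₀ W₁ J₁ ys 0 le_rfl Seg3.refl (by rw [hbase.2]; rfl)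
    (by rw [hex]) (by rw [hex, hB₀]; exact subset_union_right) (by
      rw [hbase.1, hbase.2, fls_ext]
      exact ⟨hfal1, by simp⟩) (fun v => le_rfl) (fun v hv hv' => absurd hv hv') hst1 hfal1
    subset_union_left hn hys0 (by omega) (by omega) (by omega)

end Pool.Agent.H97.RLM
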